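import Pool.Agent.W587.MX.Stm

/-!
# Project MX: conjugation and local inverse
-/

set_option autoImplicit false

namespace Pool.Agent.W715.MX

open Pool.Agent.W587.MX Set Filter Topology Metric
open scoped ComplexConjugate

theorem tendsto_conj (a0 : ℂ) : Tendsto (starRingEnd ℂ) (𝓝 ((starRingEnd ℂ) a0)) (𝓝 a0) := by
  have h := (Complex.continuous_conj.continuousAt (x := (starRingEnd ℂ) a0)).tendsto
  rwa [Complex.conj_conj] at h

theorem p4_conj : P4_CONJ := by
  intro f hf
  have hd : Differentiable ℂ (cj f) := by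
    intro w
    change DifferentiableAt ℂ ((starRingEnd ℂ) ∘ f ∘ (starRingEnd ℂ)) w
    rw [differentiableAt_conj_conj_iff]
    exact hf _
  have hder : ∀ (g : ℂ → ℂ) (w : ℂ),
      deriv (cj g) w = (starRingEnd ℂ) (deriv g ((starRingEnd ℂ) w)) := by
    intro g w
    exact congrFun (deriv_conj_conj (f := g)) w
  refine ⟨hd, hder f, ?_⟩
  rintro a0 Z ⟨hZ, hev⟩
  refine ⟨?_, ?_⟩
  · rw [Complex.analyticAt_iff_eventually_differentiableAt] at hZ ⊢
    filter_upwards [(tendsto_conj a0).eventually hZ] with w hw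
    change DifferentiableAt ℂ ((starRingEnd ℂ) ∘ Z ∘ (starRingEnd ℂ)) w
    rw [differentiableAt_conj_conj_iff]
    exact hw
  · filter_upwards [(tendsto_conj a0).eventually hev] with w hw
    obtain ⟨h1, h2⟩ := hw
    have e1 : cj f (cj Z w) = (starRingEnd ℂ) (f (Z ((starRingEnd ℂ) w))) := by
      simp only [cj, Complex.conj_conj]
    have e2 : deriv (cj f) (cj Z w) = (starRingEnd ℂ) (deriv f (Z ((starRingEnd ℂ) w))) := by
      rw [hder]
      simp only [cj, Complex.conj_conj]
    refine ⟨?_, ?_⟩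
    · rw [e1]
      exact (map_ne_zero _).mpr h1
    · rw [e1, e2]
      have h3 := congrArg (starRingEnd ℂ) h2
      rw [map_mul, map_mul, Complex.conj_conj] at h3
      exact h3

theorem p5_linv : P5_LINV := by
  intro f z0 hf hf0 hF'
  have hfa : AnalyticAt ℂ f z0 := hf.analyticAt z0
  have hF : AnalyticAt ℂ (fun z => z * deriv f z / f z) z0 :=
    (analyticAt_id.mul hfa.deriv).div hfa hf0
  let Z := hF.hasStrictDerivAt.localInverse _ _ _ hF'
  have hZ : AnalyticAt ℂ Z (z0 * deriv f z0 / f z0) := hF.analyticAt_localInverse hF'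
  have hZ0 : Z (z0 * deriv f z0 / f z0) = z0 := HasStrictFDerivAt.localInverse_apply_image ..
  have hright : ∀ᶠ a in 𝓝 (z0 * deriv f z0 / f z0), Z a * deriv f (Z a) / f (Z a) = a :=
    HasStrictDerivAt.eventually_right_inverse hF.hasStrictDerivAt hF'
  have hleft : ∀ᶠ z in 𝓝 z0, Z (z * deriv f z / f z) = z :=
    HasStrictDerivAt.eventually_left_inverse hF.hasStrictDerivAt hF'
  refine ⟨Z, ⟨hZ, ?_⟩, hZ0, hleft⟩
  have hne : ∀ᶠ a in 𝓝 (z0 * deriv f z0 / f z0), f (Z a) ≠ 0 := by
    have hc : ContinuousAt (fun a => f (Z a)) (z0 * deriv f z0 / f z0) :=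
      (hf.continuous.continuousAt).comp hZ.continuousAt
    apply hc.eventually_ne
    rw [hZ0]
    exact hf0
  filter_upwards [hright, hne] with a h1 h2
  refine ⟨h2, ?_⟩
  rw [div_eq_iff h2] at h1
  exact h1

end Pool.Agent.W715.MX
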